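import Pool.Agent.Helper16.RC.Defs

/-! # Row AVG of the measurable rectangle theorem (MP_c9c10f): rotation average. -/

set_option autoImplicit false

open MeasureTheory

namespace Pool.Agent.Helper16.RC

/-- the phase -/
noncomputable def avgC (v ξ : ℂ) : ℝ :=
  Real.cos (2 * Real.pi * (v.re * ξ.re + v.im * ξ.im))

theorem avgC_cont1 (v : ℂ) : Continuous fun ξ : ℂ => avgC v ξ := by
  unfold avgC
  exact Real.continuous_cos.comp (continuous_const.mul ((continuous_const.mul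
    Complex.continuous_re).add (continuous_const.mul Complex.continuous_im)))

theorem avgC_cont2 (ξ : ℂ) : Continuous fun v : ℂ => avgC v ξ := by
  unfold avgC
  exact Real.continuous_cos.comp (continuous_const.mul ((Complex.continuous_re.mul
    continuous_const).add (Complex.continuous_im.mul continuous_const)))

theorem avgE_cont (w : ℂ) : Continuous fun θ : ℝ => Complex.exp (θ * Complex.I) * w :=
  (Complex.continuous_exp.comp (Complex.continuous_ofReal.mul continuous_const)).mul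
    continuous_const

theorem avgC_cont3 (w : ℂ) : Continuous fun p : ℝ × ℂ =>
    avgC (Complex.exp (p.1 * Complex.I) * w) p.2 := by
  unfold avgC
  have h := (avgE_cont w).comp (continuous_fst (X := ℝ) (Y := ℂ))
  exact Real.continuous_cos.comp (continuous_const.mul (((Complex.continuous_re.comp h).mul
    (Complex.continuous_re.comp continuous_snd)).add ((Complex.continuous_im.comp h).mul
    (Complex.continuous_im.comp continuous_snd))))

theorem avgC_le (v ξ : ℂ) : |avgC v ξ| ≤ 1 := Real.abs_cos_le_one _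

/-- `v ↦ ∫ φ(ξ) cos(2π v·ξ) dξ` is continuous -/
theorem avg_cont (φ : ℂ → ℝ) (h0 : ∀ ξ, 0 ≤ φ ξ) (hφ : Integrable φ) :
    Continuous fun v : ℂ => ∫ ξ, φ ξ * avgC v ξ := by
  refine continuous_of_dominated (bound := φ) ?_ ?_ hφ ?_
  · intro v
    refine hφ.aestronglyMeasurable.mul ?_
    exact (avgC_cont1 v).aestronglyMeasurable
  · intro v
    refine Filter.Eventually.of_forall fun ξ => ?_
    rw [Real.norm_eq_abs, abs_mul, abs_of_nonneg (h0 ξ)]
    calc φ ξ * |avgC v ξ| ≤ φ ξ * 1 := mul_le_mul_of_nonneg_left (avgC_le v ξ) (h0 ξ)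
      _ = φ ξ := mul_one _
  · refine Filter.Eventually.of_forall fun ξ => ?_
    exact continuous_const.mul (avgC_cont2 ξ)

/-- Fubini -/
theorem avg_fub (hC : ST_CIRC) (φ : ℂ → ℝ) (hφ : Integrable φ) (w : ℂ) :
    Integrable (fun ξ => φ ξ * J (2 * Real.pi * (‖w‖ * ‖ξ‖))) ∧
    (2 * Real.pi)⁻¹ * ∫ θ in (0:ℝ)..(2 * Real.pi),
      (∫ ξ, φ ξ * avgC (Complex.exp (θ * Complex.I) * w) ξ) =
      ∫ ξ, φ ξ * J (2 * Real.pi * (‖w‖ * ‖ξ‖)) := by
  have hpi : (0:ℝ) ≤ 2 * Real.pi := by positivity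
  have hpi0 : (2 * Real.pi) ≠ 0 := by positivity
  set μ : Measure ℝ := volume.restrict (Set.Ioc 0 (2 * Real.pi)) with hμ
  have hint : Integrable (fun p : ℝ × ℂ =>
      φ p.2 * avgC (Complex.exp (p.1 * Complex.I) * w) p.2) (μ.prod volume) := by
    have h1 : Integrable (fun p : ℝ × ℂ => φ p.2) (μ.prod volume) := hφ.comp_snd μ
    refine h1.mono (h1.aestronglyMeasurable.mul ?_) ?_
    · exact (avgC_cont3 w).aestronglyMeasurable
    · refine Filter.Eventually.of_forall fun p => ?_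
      simp only [Real.norm_eq_abs]
      rw [abs_mul]
      calc |φ p.2| * |avgC (Complex.exp (p.1 * Complex.I) * w) p.2| ≤ |φ p.2| * 1 :=
            mul_le_mul_of_nonneg_left (avgC_le _ _) (abs_nonneg _)
        _ = |φ p.2| := mul_one _
  have hin : ∀ ξ : ℂ, (∫ θ, φ ξ * avgC (Complex.exp (θ * Complex.I) * w) ξ ∂μ) =
      2 * Real.pi * (φ ξ * J (2 * Real.pi * (‖w‖ * ‖ξ‖))) := by
    intro ξ
    have hc := hC w ξ
    rw [intervalIntegral.integral_of_le hpi] at hc
    rw [integral_const_mul, ← hc]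
    change φ ξ * (∫ θ : ℝ, avgC (Complex.exp (θ * Complex.I) * w) ξ ∂μ) = 2 * Real.pi * (φ ξ *
      ((2 * Real.pi)⁻¹ * ∫ θ : ℝ, avgC (Complex.exp (θ * Complex.I) * w) ξ ∂μ))
    generalize (∫ θ : ℝ, avgC (Complex.exp (θ * Complex.I) * w) ξ ∂μ) = I
    field_simp
  have h2 := hint.integral_prod_right
  simp only [hin] at h2
  have h3 : Integrable (fun ξ => φ ξ * J (2 * Real.pi * (‖w‖ * ‖ξ‖))) := by
    have := h2.const_mul (2 * Real.pi)⁻¹
    refine this.congr (Filter.Eventually.of_forall fun ξ => ?_)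
    simp only
    field_simp
  refine ⟨h3, ?_⟩
  rw [intervalIntegral.integral_of_le hpi]
  have h4 := integral_integral_swap
    (f := fun (θ : ℝ) (ξ : ℂ) => φ ξ * avgC (Complex.exp (θ * Complex.I) * w) ξ) hint
  rw [h4]
  simp only [hin]
  rw [integral_const_mul]
  field_simp

theorem st_AVG (hPL : ST_PL) (hC : ST_CIRC) (hP : ST_POS) : ST_AVG := by
  intro g R hg h1 hR
  obtain ⟨φ, h0, hφ, hG⟩ := hPL g R hg h1 hR
  have hG' : ∀ v : ℂ, ∫ x, g x * g (x + v) = ∫ ξ, φ ξ * avgC v ξ := hG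
  have hcont := avg_cont φ h0 hφ
  refine ⟨?_, fun d => ∫ ξ, φ ξ * J (2 * Real.pi * (d * ‖ξ‖)), ?_, ?_⟩
  · intro w
    simp only [hG']
    have : Continuous fun θ : ℝ =>
        ∫ ξ, φ ξ * avgC (Complex.exp (θ * Complex.I) * w) ξ := by
      exact hcont.comp (avgE_cont w)
    exact this.intervalIntegrable _ _
  · intro w
    simp only [hG']
    exact (avg_fub hC φ hφ w).2
  · have hI : ∀ d : ℝ, 0 ≤ d → Integrable (fun ξ : ℂ => φ ξ * J (2 * Real.pi * (d * ‖ξ‖))) := by
      intro d hd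
      have h := (avg_fub hC φ hφ (d : ℂ)).1
      rwa [Complex.norm_real, Real.norm_eq_abs, abs_of_nonneg hd] at h
    have hz : ∫ x, g x * g x = ∫ ξ, φ ξ := by
      have h := hG' 0
      simp only [add_zero] at h
      rw [h]
      congr 1
      funext ξ
      simp [avgC]
    rw [hz]
    have i1 := hI 1 (by norm_num)
    have i2 := hI √2 (Real.sqrt_nonneg _)
    have i3 := hI 2 (by norm_num)
    have i4 := hI √5 (Real.sqrt_nonneg _)
    have i5 := hI √8 (Real.sqrt_nonneg _)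
    have e : 699 / 10 * (∫ ξ, φ ξ) + 228 * (∫ ξ : ℂ, φ ξ * J (2 * Real.pi * (1 * ‖ξ‖))) +
        88 * (∫ ξ : ℂ, φ ξ * J (2 * Real.pi * (√2 * ‖ξ‖))) +
        208 * (∫ ξ : ℂ, φ ξ * J (2 * Real.pi * (2 * ‖ξ‖))) +
        52 * (∫ ξ : ℂ, φ ξ * J (2 * Real.pi * (√5 * ‖ξ‖))) +
        86 * (∫ ξ : ℂ, φ ξ * J (2 * Real.pi * (√8 * ‖ξ‖))) =
        ∫ ξ : ℂ, φ ξ * F (2 * Real.pi * ‖ξ‖) := by
      have s1 : Integrable (fun ξ : ℂ => 699 / 10 * φ ξ +
          228 * (φ ξ * J (2 * Real.pi * (1 * ‖ξ‖)))) := (hφ.const_mul _).add (i1.const_mul _)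
      have s2 : Integrable (fun ξ : ℂ => 699 / 10 * φ ξ +
          228 * (φ ξ * J (2 * Real.pi * (1 * ‖ξ‖))) +
          88 * (φ ξ * J (2 * Real.pi * (√2 * ‖ξ‖)))) := s1.add (i2.const_mul _)
      have s3 : Integrable (fun ξ : ℂ => 699 / 10 * φ ξ +
          228 * (φ ξ * J (2 * Real.pi * (1 * ‖ξ‖))) +
          88 * (φ ξ * J (2 * Real.pi * (√2 * ‖ξ‖))) +
          208 * (φ ξ * J (2 * Real.pi * (2 * ‖ξ‖)))) := s2.add (i3.const_mul _)
      have s4 : Integrable (fun ξ : ℂ => 699 / 10 * φ ξ +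
          228 * (φ ξ * J (2 * Real.pi * (1 * ‖ξ‖))) +
          88 * (φ ξ * J (2 * Real.pi * (√2 * ‖ξ‖))) +
          208 * (φ ξ * J (2 * Real.pi * (2 * ‖ξ‖))) +
          52 * (φ ξ * J (2 * Real.pi * (√5 * ‖ξ‖)))) := s3.add (i4.const_mul _)
      rw [← integral_const_mul, ← integral_const_mul, ← integral_const_mul,
        ← integral_const_mul, ← integral_const_mul, ← integral_const_mul,
        ← integral_add (hφ.const_mul _) (i1.const_mul _),
        ← integral_add s1 (i2.const_mul _), ← integral_add s2 (i3.const_mul _),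
        ← integral_add s3 (i4.const_mul _), ← integral_add s4 (i5.const_mul _)]
      refine integral_congr_ae (Filter.Eventually.of_forall fun ξ => ?_)
      simp only [F]
      have a1 : 2 * Real.pi * (1 * ‖ξ‖) = 2 * Real.pi * ‖ξ‖ := by ring
      have a2 : 2 * Real.pi * (√2 * ‖ξ‖) = √2 * (2 * Real.pi * ‖ξ‖) := by ring
      have a3 : 2 * Real.pi * (2 * ‖ξ‖) = 2 * (2 * Real.pi * ‖ξ‖) := by ring
      have a4 : 2 * Real.pi * (√5 * ‖ξ‖) = √5 * (2 * Real.pi * ‖ξ‖) := by ring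
      have a5 : 2 * Real.pi * (√8 * ‖ξ‖) = √8 * (2 * Real.pi * ‖ξ‖) := by ring
      rw [a1, a2, a3, a4, a5]
      ring
    rw [e]
    exact integral_nonneg fun ξ => mul_nonneg (h0 ξ) (hP _ (by positivity))

end Pool.Agent.Helper16.RC
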