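import Pool.Agent.Helper93.RC.Spec

/-!
# Module P2: the dense and middle range, from the second moment lemma
-/

namespace Pool.Agent.Helper13.RC

open Pool.Agent.Helper93.RC
open Filter Topology
open scoped Classical

/-! ### Counting adjacent pairs of roles -/

/-- the number of elements of a set of roles in the block `i` -/
noncomputable def tc {k : ZMod 5 → ℕ} (T : Finset (Role k)) (i : ZMod 5) : ℕ := (T.filter (fun x => x.1 = i)).card

theorem tc_le {k : ZMod 5 → ℕ} (T : Finset (Role k)) (i : ZMod 5) : tc T i ≤ k i := by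
  unfold tc
  have h1 : T.filter (fun x => x.1 = i) ⊆ (Finset.univ : Finset (Fin (k i))).image (fun y => (⟨i, y⟩ : Role k)) := by
    intro x hx
    rw [Finset.mem_filter] at hx
    obtain ⟨j, y⟩ := x
    obtain rfl : j = i := hx.2
    exact Finset.mem_image.mpr ⟨y, Finset.mem_univ _, rfl⟩
  refine (Finset.card_le_card h1).trans (Finset.card_image_le.trans ?_)
  simp

theorem card_tc {k : ZMod 5 → ℕ} (T : Finset (Role k)) : T.card = ∑ i, tc T i := by
  unfold tc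
  exact Finset.card_eq_sum_card_fiberwise (f := fun x : Role k => x.1) (t := Finset.univ) (fun x _ => by simp)

theorem near_count {k : ZMod 5 → ℕ} (T : Finset (Role k)) {x : Role k} (hx : x ∈ T) :
    (T.filter (fun y => radj x y)).card + 1 = tc T x.1 + tc T (x.1 + 1) + tc T (x.1 - 1) := by
  have h1 : insert x (T.filter (fun y => radj x y)) =
      (T.filter (fun y => y.1 = x.1) ∪ T.filter (fun y => y.1 = x.1 + 1)) ∪ T.filter (fun y => y.1 = x.1 - 1) := by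
    ext y
    simp only [Finset.mem_insert, Finset.mem_filter, Finset.mem_union]
    simp only [radj]
    constructor
    · rintro (rfl | ⟨h, -, h3⟩)
      · exact Or.inl (Or.inl ⟨hx, rfl⟩)
      · rcases h3 with h3 | h3 | h3
        · exact Or.inl (Or.inl ⟨h, h3⟩)
        · exact Or.inl (Or.inr ⟨h, h3⟩)
        · exact Or.inr ⟨h, by rw [h3]; ring⟩
    · by_cases hxy : y = x
      · intro _; exact Or.inl hxy
      · rintro ((⟨h, h3⟩ | ⟨h, h3⟩) | ⟨h, h3⟩)
        · exact Or.inr ⟨h, fun h' => hxy h'.symm, Or.inl h3⟩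
        · exact Or.inr ⟨h, fun h' => hxy h'.symm, Or.inr (Or.inl h3)⟩
        · exact Or.inr ⟨h, fun h' => hxy h'.symm, Or.inr (Or.inr (by rw [h3]; ring))⟩
  have h2 : x ∉ T.filter (fun y => radj x y) := by
    rw [Finset.mem_filter]
    rintro ⟨_, h, _⟩
    exact h rfl
  rw [← Finset.card_insert_of_notMem h2, h1, Finset.card_union_of_disjoint, Finset.card_union_of_disjoint]
  · rfl
  · rw [Finset.disjoint_filter]
    intro y _ h3 h4
    rw [h3] at h4
    revert h4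
    generalize x.1 = i
    revert i
    decide
  · rw [Finset.disjoint_union_left, Finset.disjoint_filter, Finset.disjoint_filter]
    constructor
    · intro y _ h3 h4
      rw [h3] at h4
      revert h4
      generalize x.1 = i
      revert i
      decide
    · intro y _ h3 h4
      rw [h3] at h4
      revert h4
      generalize x.1 = i
      revert i
      decide

theorem eT_count {k : ZMod 5 → ℕ} (T : Finset (Role k)) :
    2 * eT T + T.card ≤ ∑ i, tc T i * (tc T i + tc T (i + 1) + tc T (i - 1)) := by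
  have h1 : ((T ×ˢ T).filter fun x => radj x.1 x.2).card = ∑ x ∈ T, (T.filter (fun y => radj x y)).card := by
    rw [Finset.card_filter, Finset.sum_product]
    apply Finset.sum_congr rfl
    intro x _
    rw [Finset.card_filter]
  have h2 : ((T ×ˢ T).filter fun x => radj x.1 x.2).card + T.card = ∑ x ∈ T, (tc T x.1 + tc T (x.1 + 1) + tc T (x.1 - 1)) := by
    rw [h1, Finset.card_eq_sum_ones, ← Finset.sum_add_distrib]
    exact Finset.sum_congr rfl (fun x hx => near_count T hx)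
  have h3 : ∑ x ∈ T, (tc T x.1 + tc T (x.1 + 1) + tc T (x.1 - 1)) =
      ∑ i, tc T i * (tc T i + tc T (i + 1) + tc T (i - 1)) := by
    rw [← Finset.sum_fiberwise_of_maps_to (g := fun x : Role k => x.1) (t := Finset.univ) (fun x _ => by simp)]
    apply Finset.sum_congr rfl
    intro i _
    rw [Finset.sum_congr rfl (g := fun _ => tc T i + tc T (i + 1) + tc T (i - 1)), Finset.sum_const, smul_eq_mul]
    · rfl
    · intro x hx
      rw [Finset.mem_filter] at hx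
      rw [hx.2]
  have h4 : 2 * eT T ≤ ((T ×ˢ T).filter fun x => radj x.1 x.2).card := by
    unfold eT
    omega
  omega

/-- degree bound -/
theorem eT_deg {k : ZMod 5 → ℕ} {Δ : ℕ} (hΔ : ∀ i, k i + k (i + 1) + k (i - 1) ≤ Δ + 1) (T : Finset (Role k)) : 2 * eT T ≤ Δ * T.card := by
  have h1 := eT_count T
  have h2 : ∑ i, tc T i * (tc T i + tc T (i + 1) + tc T (i - 1)) ≤ ∑ i, tc T i * (Δ + 1) := by
    apply Finset.sum_le_sum
    intro i _
    apply Nat.mul_le_mul_left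
    have := tc_le T i
    have := tc_le T (i + 1)
    have := tc_le T (i - 1)
    have := hΔ i
    omega
  rw [← Finset.sum_mul, ← card_tc] at h2
  have h3 : T.card * (Δ + 1) = Δ * T.card + T.card := by ring
  omega

/-- the sizes `(1,1,2,2,2)` and `(a,a,a+1,a+1,a+1)` -/
def kk (a : ℕ) (i : ZMod 5) : ℕ := if i = 0 ∨ i = 1 then a else a + 1

theorem sum5 (f : ZMod 5 → ℕ) : ∑ i, f i = f 0 + f 1 + f 2 + f 3 + f 4 := Fin.sum_univ_five f

theorem chk1 : ∀ t0 t1 : Fin 2, ∀ t2 t3 t4 : Fin 3,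
    t0.1 * (t0.1 + t1.1 + t4.1) + t1.1 * (t1.1 + t2.1 + t0.1) + t2.1 * (t2.1 + t3.1 + t1.1) + t3.1 * (t3.1 + t4.1 + t2.1) +
      t4.1 * (t4.1 + t0.1 + t3.1) ≤ 5 * (t0.1 + t1.1 + t2.1 + t3.1 + t4.1) := by
  decide

set_option maxRecDepth 100000 in
theorem chk2 : ∀ t0 t1 : Fin 3, ∀ t2 t3 t4 : Fin 4,
    t0.1 * (t0.1 + t1.1 + t4.1) + t1.1 * (t1.1 + t2.1 + t0.1) + t2.1 * (t2.1 + t3.1 + t1.1) + t3.1 * (t3.1 + t4.1 + t2.1) +
      t4.1 * (t4.1 + t0.1 + t3.1) ≤ 8 * (t0.1 + t1.1 + t2.1 + t3.1 + t4.1) := by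
  decide

theorem eT_one (T : Finset (Role (kk 1))) : 2 * eT T ≤ 4 * T.card := by
  have h1 := eT_count T
  have h2 := card_tc T
  rw [sum5] at h1 h2
  have a0 : tc T 0 ≤ 1 := tc_le T 0
  have a1 : tc T 1 ≤ 1 := tc_le T 1
  have a2 : tc T 2 ≤ 2 := tc_le T 2
  have a3 : tc T 3 ≤ 2 := tc_le T 3
  have a4 : tc T 4 ≤ 2 := tc_le T 4
  have h3 := chk1 ⟨tc T 0, by omega⟩ ⟨tc T 1, by omega⟩ ⟨tc T 2, by omega⟩ ⟨tc T 3, by omega⟩ ⟨tc T 4, by omega⟩
  have e1 : tc T 0 * (tc T 0 + tc T (0 + 1) + tc T (0 - 1)) = tc T 0 * (tc T 0 + tc T 1 + tc T 4) := rfl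
  have e2 : tc T 1 * (tc T 1 + tc T (1 + 1) + tc T (1 - 1)) = tc T 1 * (tc T 1 + tc T 2 + tc T 0) := rfl
  have e3 : tc T 2 * (tc T 2 + tc T (2 + 1) + tc T (2 - 1)) = tc T 2 * (tc T 2 + tc T 3 + tc T 1) := rfl
  have e4 : tc T 3 * (tc T 3 + tc T (3 + 1) + tc T (3 - 1)) = tc T 3 * (tc T 3 + tc T 4 + tc T 2) := rfl
  have e5 : tc T 4 * (tc T 4 + tc T (4 + 1) + tc T (4 - 1)) = tc T 4 * (tc T 4 + tc T 0 + tc T 3) := rfl
  rw [e1, e2, e3, e4, e5] at h1
  have h4 := le_trans h1 h3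
  rw [← h2] at h4
  omega

theorem eT_two (T : Finset (Role (kk 2))) : 2 * eT T ≤ 7 * T.card := by
  have h1 := eT_count T
  have h2 := card_tc T
  rw [sum5] at h1 h2
  have a0 : tc T 0 ≤ 2 := tc_le T 0
  have a1 : tc T 1 ≤ 2 := tc_le T 1
  have a2 : tc T 2 ≤ 3 := tc_le T 2
  have a3 : tc T 3 ≤ 3 := tc_le T 3
  have a4 : tc T 4 ≤ 3 := tc_le T 4
  have h3 := chk2 ⟨tc T 0, by omega⟩ ⟨tc T 1, by omega⟩ ⟨tc T 2, by omega⟩ ⟨tc T 3, by omega⟩ ⟨tc T 4, by omega⟩
  have e1 : tc T 0 * (tc T 0 + tc T (0 + 1) + tc T (0 - 1)) = tc T 0 * (tc T 0 + tc T 1 + tc T 4) := rfl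
  have e2 : tc T 1 * (tc T 1 + tc T (1 + 1) + tc T (1 - 1)) = tc T 1 * (tc T 1 + tc T 2 + tc T 0) := rfl
  have e3 : tc T 2 * (tc T 2 + tc T (2 + 1) + tc T (2 - 1)) = tc T 2 * (tc T 2 + tc T 3 + tc T 1) := rfl
  have e4 : tc T 3 * (tc T 3 + tc T (3 + 1) + tc T (3 - 1)) = tc T 3 * (tc T 3 + tc T 4 + tc T 2) := rfl
  have e5 : tc T 4 * (tc T 4 + tc T (4 + 1) + tc T (4 - 1)) = tc T 4 * (tc T 4 + tc T 0 + tc T 3) := rfl
  rw [e1, e2, e3, e4, e5] at h1
  have h4 := le_trans h1 h3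
  rw [← h2] at h4
  omega

theorem eT_even (a : ℕ) (ha : 1 ≤ a) (T : Finset (Role (fun _ => a))) : 2 * eT T ≤ (3 * a - 1) * T.card := by
  apply eT_deg
  intro i
  omega

theorem eT_odd (a : ℕ) (T : Finset (Role (kk a))) : 2 * eT T ≤ (3 * a + 2) * T.card := by
  apply eT_deg
  intro i
  unfold kk
  split_ifs <;> omega

/-! ### The overlap sum and the bad events -/

theorem card_role (k : ZMod 5 → ℕ) : Fintype.card (Role k) = vk k := by
  unfold vk
  rw [Fintype.card_sigma]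
  simp

theorem tau_le {n : ℕ} {p : ℝ} {k : ZMod 5 → ℕ} {y : ℝ} (hy0 : 0 ≤ y)
    (h : ∀ T : Finset (Role k), T.Nonempty → (2 * (vk k : ℝ) / n) ^ T.card * (p⁻¹) ^ eT T ≤ y ^ T.card)
    (hvy : (vk k : ℝ) * y ≤ 1) : tau n p k ≤ 2 * ((vk k : ℝ) * y) := by
  unfold tau
  have h1 : ∑ T ∈ (Finset.univ : Finset (Finset (Role k))).filter (fun T => T.Nonempty),
      (2 * (vk k : ℝ) / n) ^ T.card * (p⁻¹) ^ eT T ≤
      ∑ T ∈ (Finset.univ : Finset (Finset (Role k))).filter (fun T => T.Nonempty), y ^ T.card := by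
    apply Finset.sum_le_sum
    intro T hT
    exact h T (Finset.mem_filter.mp hT).2
  refine h1.trans ?_
  have h2 : ∑ T : Finset (Role k), y ^ T.card = (y + 1) ^ vk k := by
    have h3 := Finset.sum_pow_mul_eq_add_pow y 1 (Finset.univ : Finset (Role k))
    rw [Finset.card_univ, card_role, Finset.powerset_univ] at h3
    rw [← h3]
    simp
  have h3 : ∑ T ∈ (Finset.univ : Finset (Finset (Role k))).filter (fun T => T.Nonempty), y ^ T.card + 1 =
      ∑ T : Finset (Role k), y ^ T.card := by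
    rw [← Finset.sum_filter_add_sum_filter_not Finset.univ (fun T : Finset (Role k) => T.Nonempty) (fun T => y ^ T.card)]
    congr 1
    have h4 : (Finset.univ : Finset (Finset (Role k))).filter (fun T => ¬ T.Nonempty) = {∅} := by
      ext T
      simp
    rw [h4]
    simp
  have h4 : (y + 1) ^ vk k ≤ Real.exp ((vk k : ℝ) * y) := by
    rw [Real.exp_nat_mul]
    exact pow_le_pow_left₀ (by linarith) (Real.add_one_le_exp y) _
  have h5 : |Real.exp ((vk k : ℝ) * y) - 1| ≤ 2 * |(vk k : ℝ) * y| := by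
    apply Real.abs_exp_sub_one_le
    rw [abs_of_nonneg (by positivity)]
    exact hvy
  rw [abs_of_nonneg (by positivity : (0 : ℝ) ≤ (vk k : ℝ) * y)] at h5
  have h6 := le_abs_self (Real.exp ((vk k : ℝ) * y) - 1)
  linarith

theorem bad_le {n : ℕ} {p : ℝ} {k : ZMod 5 → ℕ} {s a M : ℕ} (hp0 : 0 ≤ p) (hp1 : p ≤ 1) (h1 : ∀ i, s ≤ k i + k (i + 2))
    (h2 : ∀ i, a ≤ k i) (h3 : ∀ i, k i ≤ M) :
    bad n p k ≤ 5 * ((n : ℝ) * p ^ s) + 125 * ((M : ℝ) ^ 2 * (2 * p - p ^ 2) ^ a) := by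
  unfold bad
  have hq0 : 0 ≤ 2 * p - p ^ 2 := by nlinarith
  have hq1 : 2 * p - p ^ 2 ≤ 1 := by nlinarith [sq_nonneg (1 - p)]
  have hc : ∀ c : ℝ, ∑ _i : ZMod 5, c = 5 * c := by
    intro c
    rw [Finset.sum_const, Finset.card_univ]
    have : Fintype.card (ZMod 5) = 5 := ZMod.card 5
    rw [this, nsmul_eq_mul]
    norm_num
  apply add_le_add
  · rw [← hc]
    apply Finset.sum_le_sum
    intro i _
    exact mul_le_mul_of_nonneg_left (pow_le_pow_of_le_one hp0 hp1 (h1 i)) (by positivity)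
  · have h5 : (125 : ℝ) * ((M : ℝ) ^ 2 * (2 * p - p ^ 2) ^ a) = ∑ _i : ZMod 5, ∑ _j : ZMod 5, ∑ _l : ZMod 5, ((M : ℝ) ^ 2 * (2 * p - p ^ 2) ^ a) := by
      rw [hc, hc, hc]; ring
    rw [h5]
    apply Finset.sum_le_sum; intro i _
    apply Finset.sum_le_sum; intro j _
    apply Finset.sum_le_sum; intro l _
    have h6 : (k i : ℝ) ≤ M := by exact_mod_cast h3 i
    have h7 : (k l : ℝ) ≤ M := by exact_mod_cast h3 l
    split_ifs
    · have h8 : (2 * p - p ^ 2) ^ k j ≤ (2 * p - p ^ 2) ^ a := pow_le_pow_of_le_one hq0 hq1 (h2 j)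
      calc (k i : ℝ) * (k l : ℝ) * (2 * p - p ^ 2) ^ k j ≤ (M : ℝ) * M * (2 * p - p ^ 2) ^ a := by gcongr
        _ = _ := by ring
    · positivity

/-- the terms of the overlap sum -/
theorem term_le {n : ℕ} {l lam : ℝ} {v t e D : ℕ} (hn : (n : ℝ) = Real.exp l) (he : 2 * e ≤ D * t)
    (hlam : 0 ≤ lam) (hD : (D : ℝ) * lam ≤ 2 * (95 / 100 * l)) :
    (2 * (v : ℝ) / n) ^ t * ((Real.exp (-lam))⁻¹) ^ e ≤ (2 * v * Real.exp (-(5 / 100 * l))) ^ t := by
  have h1 : ((Real.exp (-lam))⁻¹) ^ e ≤ Real.exp (95 / 100 * l) ^ t := by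
    rw [← Real.exp_neg, neg_neg, ← Real.exp_nat_mul, ← Real.exp_nat_mul, Real.exp_le_exp]
    have h2 : (2 : ℝ) * e ≤ D * t := by exact_mod_cast he
    have h3 : (2 : ℝ) * e * lam ≤ D * t * lam := mul_le_mul_of_nonneg_right h2 hlam
    have h4 : (t : ℝ) * (D * lam) ≤ t * (2 * (95 / 100 * l)) := mul_le_mul_of_nonneg_left hD (by positivity)
    nlinarith
  calc (2 * (v : ℝ) / n) ^ t * ((Real.exp (-lam))⁻¹) ^ e ≤ (2 * (v : ℝ) / n) ^ t * Real.exp (95 / 100 * l) ^ t := by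
        apply mul_le_mul_of_nonneg_left h1 (by positivity)
    _ = (2 * (v : ℝ) / n * Real.exp (95 / 100 * l)) ^ t := by rw [mul_pow]
    _ = _ := by
        congr 1
        rw [hn, div_mul_eq_mul_div, mul_div_assoc, ← Real.exp_sub]
        congr 2
        ring

/-! ### Limits -/

theorem lim_exp {c d δ : ℝ} (hd : 0 < d) (hδ : 0 < δ) : ∀ᶠ l : ℝ in atTop, c * Real.exp (-(d * l)) ≤ δ := by
  have h1 : Tendsto (fun l : ℝ => c * Real.exp (-(d * l))) atTop (𝓝 (c * 0)) := by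
    apply Tendsto.const_mul
    exact Real.tendsto_exp_neg_atTop_nhds_zero.comp (tendsto_id.const_mul_atTop hd)
  rw [mul_zero] at h1
  exact (h1.eventually (gt_mem_nhds hδ)).mono (fun _ h => le_of_lt h)

theorem lim_sq {c d b δ : ℝ} (hc : 0 ≤ c) (hb : 0 ≤ b) (hd : 0 < d) (hδ : 0 < δ) :
    ∀ᶠ l : ℝ in atTop, c * (l * b + 1) ^ 2 * Real.exp (-(d * l)) ≤ δ := by
  have h1 : Tendsto (fun l : ℝ => l ^ (2 : ℝ) * Real.exp (-d * l)) atTop (𝓝 0) := tendsto_rpow_mul_exp_neg_mul_atTop_nhds_zero 2 d hd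
  have h2 : Tendsto (fun l : ℝ => c * (b + 1) ^ 2 * (l ^ (2 : ℝ) * Real.exp (-d * l))) atTop (𝓝 (c * (b + 1) ^ 2 * 0)) := h1.const_mul _
  rw [mul_zero] at h2
  filter_upwards [h2.eventually (gt_mem_nhds hδ), eventually_ge_atTop (1 : ℝ)] with l h3 h4
  refine le_trans ?_ h3.le
  have h5 : l ^ (2 : ℝ) = l ^ 2 := by
    rw [← Real.rpow_natCast]; norm_num
  rw [h5]
  have h6 : l * b + 1 ≤ (b + 1) * l := by nlinarith
  have h7 : (l * b + 1) ^ 2 ≤ ((b + 1) * l) ^ 2 := by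
    apply pow_le_pow_left₀ (by positivity) h6
  have h8 : -(d * l) = -d * l := by ring
  rw [h8]
  calc c * (l * b + 1) ^ 2 * Real.exp (-d * l) ≤ c * ((b + 1) * l) ^ 2 * Real.exp (-d * l) := by gcongr
    _ = _ := by ring

theorem lim_geo {r δ : ℝ} (hr0 : 0 ≤ r) (hr1 : r < 1) (hδ : 0 < δ) : ∃ A : ℕ, ∀ a : ℕ, A ≤ a → ((a : ℝ) + 1) ^ 2 * r ^ a ≤ δ := by
  have h1 := tendsto_pow_const_mul_const_pow_of_abs_lt_one 2 (show |r| < 1 by rw [abs_of_nonneg hr0]; exact hr1)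
  have h2 : Tendsto (fun n : ℕ => 4 * ((n : ℝ) ^ 2 * r ^ n)) atTop (𝓝 (4 * 0)) := h1.const_mul _
  rw [mul_zero] at h2
  obtain ⟨A, hA⟩ := eventually_atTop.mp (h2.eventually (gt_mem_nhds hδ))
  refine ⟨A + 1, fun a ha => ?_⟩
  refine le_trans ?_ (hA a (by omega)).le
  have h3 : (1 : ℝ) ≤ a := by
    have : 1 ≤ a := by omega
    exact_mod_cast this
  have h4 : ((a : ℝ) + 1) ^ 2 ≤ 4 * (a : ℝ) ^ 2 := by nlinarith
  calc ((a : ℝ) + 1) ^ 2 * r ^ a ≤ 4 * (a : ℝ) ^ 2 * r ^ a := by gcongr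
    _ = _ := by ring

/-! ### The main estimate -/

/-- all the conditions on `l = log n` used below -/
theorem conds {ε η : ℝ} (hε : 0 < ε) (hη : 0 < η) (A : ℕ) : ∀ᶠ l : ℝ in atTop, 1 ≤ l ∧ 5 * Real.exp (-(2 / 100 * l)) ≤ η / 8 ∧
    1000 * Real.exp (-(34 / 100 * l)) ≤ η / 8 ∧ 200 * (l * ε⁻¹ + 1) ^ 2 * Real.exp (-(5 / 100 * l)) ≤ min (η / 8) 1 ∧
    10 * (l * ε⁻¹ + 1) ^ 2 * Real.exp (-(1 * l)) ≤ 1 ∧
    (250 * ((A : ℝ) + 1) ^ 2) * Real.exp (-(102 / 100 / (2 * A + 1) * l)) ≤ η / 8 := by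
  have hε' : 0 ≤ ε⁻¹ := by positivity
  filter_upwards [eventually_ge_atTop (1 : ℝ), lim_exp (c := 5) (d := 2 / 100) (δ := η / 8) (by norm_num) (by positivity),
    lim_exp (c := 1000) (d := 34 / 100) (δ := η / 8) (by norm_num) (by positivity),
    lim_sq (c := 200) (b := ε⁻¹) (d := 5 / 100) (δ := min (η / 8) 1) (by norm_num) hε' (by norm_num) (by positivity),
    lim_sq (c := 10) (b := ε⁻¹) (d := 1) (δ := 1) (by norm_num) hε' (by norm_num) (by norm_num),
    lim_exp (c := 250 * ((A : ℝ) + 1) ^ 2) (d := 102 / 100 / (2 * A + 1)) (δ := η / 8) (by positivity) (by positivity)] with l h1 h2 h3 h4 h5 h6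
  exact ⟨h1, h2, h3, h4, h5, h6⟩

/-- the estimate for the sizes with minimum `a ≥ 2` -/
theorem caseB {ε η : ℝ} (hε : 0 < ε) {A : ℕ} (hA : ∀ a : ℕ, A ≤ a → ((a : ℝ) + 1) ^ 2 * (1 - ε ^ 2) ^ a ≤ η / 1000)
    (hP1 : ST_P1) {n : ℕ} {l lam : ℝ} (hn : (n : ℝ) = Real.exp l) (hlam : ε ≤ lam) (hp : Real.exp (-lam) ≤ 1 - ε)
    (h1 : 1 ≤ l) (h2 : 5 * Real.exp (-(2 / 100 * l)) ≤ η / 8)
    (h4 : 200 * (l * ε⁻¹ + 1) ^ 2 * Real.exp (-(5 / 100 * l)) ≤ min (η / 8) 1)
    (h5 : 10 * (l * ε⁻¹ + 1) ^ 2 * Real.exp (-(1 * l)) ≤ 1)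
    (h6 : (250 * ((A : ℝ) + 1) ^ 2) * Real.exp (-(102 / 100 / (2 * A + 1) * l)) ≤ η / 8)
    {a s D : ℕ} {k : ZMod 5 → ℕ} (ha : 1 ≤ a) (hk1 : ∀ i, a ≤ k i) (hk2 : ∀ i, k i ≤ a + 1) (hks : ∀ i, s ≤ k i + k (i + 2))
    (hs1 : 102 / 100 * l ≤ s * lam) (hs2 : s ≤ 2 * a + 1) (has : (a : ℝ) * lam ≤ l)
    (hD : ∀ T : Finset (Role k), 2 * eT T ≤ D * T.card) (hDl : (D : ℝ) * lam ≤ 2 * (95 / 100 * l)) :
    1 - gnp n (Real.exp (-lam)) {G | HasConf G} ≤ η := by
  have hlam0 : 0 < lam := lt_of_lt_of_le hε hlam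
  obtain ⟨p, hpd⟩ : ∃ p, p = Real.exp (-lam) := ⟨_, rfl⟩
  have hp0 : 0 < p := by rw [hpd]; exact Real.exp_pos _
  have hp1 : p < 1 := by
    have := Real.exp_lt_exp.mpr (show -lam < 0 by linarith)
    rwa [Real.exp_zero, ← hpd] at this
  have hη : 0 ≤ η := by
    have : 0 ≤ 5 * Real.exp (-(2 / 100 * l)) := by positivity
    linarith
  have hl0 : 0 < l := by linarith
  have haε : (a : ℝ) ≤ l * ε⁻¹ := by
    rw [← div_eq_mul_inv, le_div_iff₀ hε]
    have : (a : ℝ) * ε ≤ a * lam := mul_le_mul_of_nonneg_left hlam (by positivity)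
    linarith
  have hv : (vk k : ℝ) ≤ 5 * (l * ε⁻¹ + 1) := by
    have h7 : vk k ≤ 5 * (a + 1) := by
      unfold vk
      refine (Finset.sum_le_sum (fun i _ => hk2 i)).trans ?_
      rw [Finset.sum_const, Finset.card_univ]
      have : Fintype.card (ZMod 5) = 5 := ZMod.card 5
      rw [this, smul_eq_mul]
    have h8 : (vk k : ℝ) ≤ 5 * (a + 1) := by exact_mod_cast h7
    linarith
  have hv0 : (0 : ℝ) ≤ vk k := by positivity
  obtain ⟨w, hw⟩ : ∃ w, w = l * ε⁻¹ + 1 := ⟨_, rfl⟩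
  rw [← hw] at hv h4 h5
  have hw1 : 1 ≤ w := by
    rw [hw]
    have : 0 ≤ l * ε⁻¹ := by positivity
    linarith
  have hvv : (vk k : ℝ) * (2 * vk k * Real.exp (-(5 / 100 * l))) ≤ 50 * w ^ 2 * Real.exp (-(5 / 100 * l)) := by
    have h7 : (vk k : ℝ) * vk k ≤ (5 * w) * (5 * w) := by gcongr
    calc (vk k : ℝ) * (2 * vk k * Real.exp (-(5 / 100 * l))) = 2 * (vk k * vk k) * Real.exp (-(5 / 100 * l)) := by ring
      _ ≤ 2 * ((5 * w) * (5 * w)) * Real.exp (-(5 / 100 * l)) := by gcongr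
      _ = _ := by ring
  have hE0 : 0 ≤ w ^ 2 * Real.exp (-(5 / 100 * l)) := by positivity
  have m1 := min_le_left (η / 8) (1 : ℝ)
  have m2 := min_le_right (η / 8) (1 : ℝ)
  have htau : tau n p k ≤ η / 8 := by
    have h7 := tau_le (n := n) (p := p) (k := k) (y := 2 * vk k * Real.exp (-(5 / 100 * l))) (by positivity)
      (fun T _ => by
        rw [hpd]
        exact term_le hn (hD T) hlam0.le hDl)
      (by nlinarith)
    nlinarith
  have hnp : (n : ℝ) * p ^ s ≤ Real.exp (-(2 / 100 * l)) := by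
    rw [hn, hpd, ← Real.exp_nat_mul, ← Real.exp_add, Real.exp_le_exp]
    linarith
  have hq0 : 0 ≤ 2 * p - p ^ 2 := by nlinarith
  have hqa : ((a : ℝ) + 1) ^ 2 * (2 * p - p ^ 2) ^ a ≤ η / 1000 := by
    by_cases hAa : A ≤ a
    · refine le_trans ?_ (hA a hAa)
      have h7 : 2 * p - p ^ 2 ≤ 1 - ε ^ 2 := by
        have h8 : ε ≤ 1 - p := by rw [hpd]; linarith
        have h9 : ε ^ 2 ≤ (1 - p) ^ 2 := pow_le_pow_left₀ hε.le h8 2
        nlinarith
      have h8 : (2 * p - p ^ 2) ^ a ≤ (1 - ε ^ 2) ^ a := pow_le_pow_left₀ hq0 h7 a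
      exact mul_le_mul_of_nonneg_left h8 (by positivity)
    · push Not at hAa
      have h7 : (2 * p - p ^ 2) ^ a ≤ 2 * p := by
        have h8 : (2 * p - p ^ 2) ^ a ≤ (2 * p - p ^ 2) ^ 1 :=
          pow_le_pow_of_le_one hq0 (by nlinarith [sq_nonneg (1 - p)]) ha
        nlinarith
      have h8 : ((a : ℝ) + 1) ^ 2 ≤ ((A : ℝ) + 1) ^ 2 := by
        have : (a : ℝ) ≤ A := by exact_mod_cast hAa.le
        apply pow_le_pow_left₀ (by positivity)
        linarith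
      have h9 : p ≤ Real.exp (-(102 / 100 / (2 * A + 1) * l)) := by
        rw [hpd, Real.exp_le_exp, neg_le_neg_iff]
        have h10 : 102 / 100 * l ≤ (2 * (A : ℝ) + 1) * lam := by
          refine hs1.trans ?_
          apply mul_le_mul_of_nonneg_right _ hlam0.le
          have : s ≤ 2 * A + 1 := by omega
          exact_mod_cast this
        rw [div_mul_eq_mul_div, div_le_iff₀ (by positivity)]
        linarith
      calc ((a : ℝ) + 1) ^ 2 * (2 * p - p ^ 2) ^ a ≤ ((A : ℝ) + 1) ^ 2 * (2 * p) := by gcongr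
        _ ≤ ((A : ℝ) + 1) ^ 2 * (2 * Real.exp (-(102 / 100 / (2 * A + 1) * l))) := by gcongr
        _ ≤ η / 1000 := by linarith
  have hbad : bad n p k ≤ η / 4 := by
    have h7 := bad_le (n := n) (p := p) (k := k) (s := s) (a := a) (M := a + 1) hp0.le hp1.le hks hk1 hk2
    push_cast at h7
    linarith
  have h2v : 2 * vk k ≤ n := by
    have h7 : (2 : ℝ) * vk k ≤ n := by
      have h8 : 10 * w ≤ Real.exp l := by
        have h9 : 10 * w ^ 2 ≤ Real.exp l := by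
          rw [one_mul, Real.exp_neg, ← div_eq_mul_inv, div_le_one (Real.exp_pos l)] at h5
          exact h5
        nlinarith
      rw [hn]
      linarith
    exact_mod_cast h7
  have h7 := hP1 n p k hp0 hp1 (fun i => ha.trans (hk1 i)) h2v
  rw [← hpd]
  linarith

theorem kk_sum (a : ℕ) (i : ZMod 5) : 2 * a + 1 ≤ kk a i + kk a (i + 2) := by
  have key : ∀ i : ZMod 5, ¬ ((i = 0 ∨ i = 1) ∧ (i + 2 = 0 ∨ i + 2 = 1)) := by decide
  unfold kk
  split_ifs with h1 h2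
  · exact absurd ⟨h1, h2⟩ (key i)
  · omega
  · omega
  · omega

theorem kk_ge (a : ℕ) (i : ZMod 5) : a ≤ kk a i := by
  unfold kk; split_ifs <;> omega

theorem kk_le (a : ℕ) (i : ZMod 5) : kk a i ≤ a + 1 := by
  unfold kk; split_ifs <;> omega

theorem vk_one : vk (kk 1) = 8 := by
  unfold vk
  rw [sum5]
  rfl

/-- the estimate for the sizes `(1,1,2,2,2)` -/
theorem caseA {η : ℝ} (hη : 0 < η) (hP1 : ST_P1) {n : ℕ} {l lam : ℝ} (hn : (n : ℝ) = Real.exp l) (hlam : 0 < lam)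
    (h2 : 5 * Real.exp (-(2 / 100 * l)) ≤ η / 8) (h3 : 1000 * Real.exp (-(34 / 100 * l)) ≤ η / 8)
    (hK : 128 + 2048 / η ≤ n * Real.exp (-lam) ^ 2) (h16 : 16 ≤ n) (hA : 102 / 100 * l ≤ 3 * lam) :
    1 - gnp n (Real.exp (-lam)) {G | HasConf G} ≤ η := by
  obtain ⟨p, hpd⟩ : ∃ p, p = Real.exp (-lam) := ⟨_, rfl⟩
  have hp0 : 0 < p := by rw [hpd]; exact Real.exp_pos _
  have hp1 : p < 1 := by
    have := Real.exp_lt_exp.mpr (show -lam < 0 by linarith)
    rwa [Real.exp_zero, ← hpd] at this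
  rw [← hpd] at hK
  obtain ⟨K, hKd⟩ : ∃ K, K = 128 + 2048 / η := ⟨_, rfl⟩
  rw [← hKd] at hK
  have hη' : 0 < 2048 / η := by positivity
  have hK0 : 128 < K := by rw [hKd]; linarith
  have hKpos : 0 < K := by linarith
  have hn0 : (0 : ℝ) < n := by rw [hn]; exact Real.exp_pos _
  have hv : (vk (kk 1) : ℝ) = 8 := by rw [vk_one]; norm_num
  have htau : tau n p (kk 1) ≤ η / 8 := by
    have h7 := tau_le (n := n) (p := p) (k := kk 1) (y := 16 / K) (by positivity)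
      (fun T _ => by
        have h8 := eT_one T
        have h9 : eT T ≤ 2 * T.card := by omega
        have h10 : (p⁻¹) ^ eT T ≤ (p⁻¹) ^ (2 * T.card) := pow_le_pow_right₀ (by rw [one_le_inv₀ hp0]; exact hp1.le) h9
        rw [hv]
        calc (2 * (8 : ℝ) / n) ^ T.card * (p⁻¹) ^ eT T ≤ (2 * (8 : ℝ) / n) ^ T.card * (p⁻¹) ^ (2 * T.card) := by gcongr
          _ = (16 / (n * p ^ 2)) ^ T.card := by
              rw [pow_mul, ← mul_pow]
              congr 1
              field_simp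
              norm_num
          _ ≤ (16 / K) ^ T.card := by gcongr)
      (by
        rw [hv]
        rw [← mul_div_assoc, div_le_one hKpos]
        linarith)
    rw [hv] at h7
    refine h7.trans ?_
    have h8 : 2 * (8 * (16 / K)) = 256 / K := by ring
    rw [h8, div_le_iff₀ hKpos]
    have h9 : η / 8 * (2048 / η) = 256 := by field_simp; norm_num
    have h10 : η / 8 * K = η / 8 * 128 + η / 8 * (2048 / η) := by rw [hKd]; ring
    rw [h10, h9]
    have : 0 < η / 8 * 128 := by positivity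
    linarith
  have hbad : bad n p (kk 1) ≤ η / 4 := by
    have h7 := bad_le (n := n) (p := p) (k := kk 1) (s := 3) (a := 1) (M := 2) hp0.le hp1.le (fun i => kk_sum 1 i)
      (fun i => kk_ge 1 i) (fun i => kk_le 1 i)
    have h8 : (n : ℝ) * p ^ 3 ≤ Real.exp (-(2 / 100 * l)) := by
      rw [hn, hpd, ← Real.exp_nat_mul, ← Real.exp_add, Real.exp_le_exp]
      push_cast
      linarith
    have h9 : p ≤ Real.exp (-(34 / 100 * l)) := by
      rw [hpd, Real.exp_le_exp]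
      linarith
    push_cast at h7
    nlinarith
  have h2v : 2 * vk (kk 1) ≤ n := by rw [vk_one]; exact h16
  have h7 := hP1 n p (kk 1) hp0 hp1 (fun i => kk_ge 1 i) h2v
  rw [← hpd]
  linarith

/-- **P2** -/
theorem P2 (hP1 : ST_P1) : ST_P2 := by
  intro ε η hε hη
  by_cases hε1 : 1 < ε
  · exact ⟨0, 0, fun n p _ hp hp1 _ => by linarith⟩
  push Not at hε1
  obtain ⟨A, hA⟩ := lim_geo (r := 1 - ε ^ 2) (δ := η / 1000) (by nlinarith) (by nlinarith [sq_pos_of_pos hε]) (by positivity)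
  obtain ⟨L0, hL0⟩ := eventually_atTop.mp (conds hε hη A)
  refine ⟨128 + 2048 / η, ⌈Real.exp L0⌉₊ + 16, fun n p hn hp hp1 hK => ?_⟩
  have hn0 : (0 : ℝ) < n := by
    have : 0 < n := by omega
    exact_mod_cast this
  obtain ⟨l, hl⟩ : ∃ l, l = Real.log n := ⟨_, rfl⟩
  obtain ⟨lam, hlam⟩ : ∃ lam, lam = - Real.log p := ⟨_, rfl⟩
  have hnl : (n : ℝ) = Real.exp l := by rw [hl, Real.exp_log hn0]
  have hpl : p = Real.exp (-lam) := by rw [hlam, neg_neg, Real.exp_log hp]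
  have hlL : L0 ≤ l := by
    rw [hl, Real.le_log_iff_exp_le hn0]
    have h1 := Nat.le_ceil (Real.exp L0)
    have h2 : ((⌈Real.exp L0⌉₊ + 16 : ℕ) : ℝ) ≤ n := by exact_mod_cast hn
    push_cast at h2
    linarith
  have hlamε : ε ≤ lam := by
    have h1 := Real.log_le_sub_one_of_pos hp
    rw [hlam]
    linarith
  obtain ⟨c1, c2, c3, c4, c5, c6⟩ := hL0 l hlL
  have hlam0 : 0 < lam := by linarith
  rw [hpl] at hK hp1 ⊢
  by_cases hcase : 102 / 100 * l ≤ 3 * lam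
  · exact caseA hη hP1 hnl hlam0 c2 c3 hK (by omega) hcase
  push Not at hcase
  obtain ⟨s, hs⟩ : ∃ s : ℕ, s = ⌈102 / 100 * l / lam⌉₊ := ⟨_, rfl⟩
  have hs1 : 102 / 100 * l ≤ s * lam := by
    have h1 := Nat.le_ceil (102 / 100 * l / lam)
    rw [← hs, div_le_iff₀ hlam0] at h1
    exact h1
  have hs2 : (s : ℝ) * lam < 102 / 100 * l + lam := by
    have h1 := Nat.ceil_lt_add_one (a := 102 / 100 * l / lam) (by positivity)
    rw [← hs] at h1
    have h2 : (s : ℝ) * lam < (102 / 100 * l / lam + 1) * lam := mul_lt_mul_of_pos_right h1 hlam0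
    have h3 : (102 / 100 * l / lam + 1) * lam = 102 / 100 * l + lam := by field_simp
    linarith
  have hs4 : 4 ≤ s := by
    have h1 : (3 : ℝ) < s := by
      by_contra hc
      push Not at hc
      have : (s : ℝ) * lam ≤ 3 * lam := mul_le_mul_of_nonneg_right hc hlam0.le
      linarith
    have h2 : 3 < s := by exact_mod_cast h1
    omega
  rcases Nat.even_or_odd' s with ⟨a, ha | ha⟩
  · have ha2 : 2 ≤ a := by omega
    have hsr : (s : ℝ) = 2 * a := by rw [ha]; push_cast; ring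
    have haR : (2 : ℝ) ≤ a := by exact_mod_cast ha2
    rw [hsr] at hs2
    exact caseB hε hA hP1 hnl hlamε hp1 c1 c2 c4 c5 c6 (a := a) (s := s) (D := 3 * a - 1) (k := fun _ => a) (by omega)
      (fun _ => le_refl _) (fun _ => by omega) (fun _ => by omega) hs1 (by omega) (by linarith)
      (fun T => eT_even a (by omega) T) (by
        have h1 : ((3 * a - 1 : ℕ) : ℝ) = 3 * a - 1 := by
          rw [Nat.cast_sub (by omega)]; push_cast; ring
        rw [h1]
        nlinarith)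
  · have ha2 : 2 ≤ a := by omega
    have hsr : (s : ℝ) = 2 * a + 1 := by rw [ha]; push_cast; ring
    rw [hsr] at hs2
    have haR : (2 : ℝ) ≤ a := by exact_mod_cast ha2
    have hal : (a : ℝ) * lam < 51 / 100 * l := by nlinarith
    by_cases ha3 : a = 2
    · subst ha3
      exact caseB hε hA hP1 hnl hlamε hp1 c1 c2 c4 c5 c6 (a := 2) (s := s) (D := 7) (k := kk 2) (by omega)
        (fun i => kk_ge 2 i) (fun i => kk_le 2 i) (fun i => by rw [ha]; exact kk_sum 2 i) hs1 (by omega) (by push_cast at hal ⊢; linarith)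
        (fun T => eT_two T) (by push_cast at hal ⊢; linarith)
    · have haR3 : (3 : ℝ) ≤ a := by
        have : 3 ≤ a := by omega
        exact_mod_cast this
      exact caseB hε hA hP1 hnl hlamε hp1 c1 c2 c4 c5 c6 (a := a) (s := s) (D := 3 * a + 2) (k := kk a) (by omega)
        (fun i => kk_ge a i) (fun i => kk_le a i) (fun i => by rw [ha]; exact kk_sum a i) hs1 (by omega) (by linarith)
        (fun T => eT_odd a T) (by
          push_cast
          have h1 : 3 * lam ≤ a * lam := mul_le_mul_of_nonneg_right haR3 hlam0.le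
          nlinarith)

end Pool.Agent.Helper13.RC
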