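import Pool.Agent.Helper16.RC.Defs

/-! # Row PL of the measurable rectangle theorem (MP_c9c10f): Plancherel in the plane. -/

set_option autoImplicit false

open MeasureTheory
open scoped FourierTransform ContDiff

namespace Pool.Agent.Helper16.RC

theorem pl_ae_eq (f : ℂ → ℂ) (hf : Integrable f) (hf2 : MemLp f 2) :
    ((𝓕 (hf2.toLp f) : Lp ℂ 2 (volume : Measure ℂ)) : ℂ → ℂ) =ᵐ[volume] 𝓕 f := by
  apply ae_eq_of_integral_contDiff_smul_eq
  · exact (Lp.memLp _).locallyIntegrable (by norm_num)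
  · apply Continuous.locallyIntegrable
    exact VectorFourier.fourierIntegral_continuous Real.continuous_fourierChar
      (innerSL ℝ).continuous₂ hf
  · intro g hg hgc
    have hg₁ : HasCompactSupport (Complex.ofRealCLM ∘ g) := hgc.comp_left rfl
    have hg₂ : ContDiff ℝ ∞ (Complex.ofRealCLM ∘ g) := by fun_prop
    let G : SchwartzMap ℂ ℂ := hg₁.toSchwartzMap hg₂
    have hG : ∀ x, G x = (g x : ℂ) := fun x => rfl
    have h1 : ∫ x, g x • ((𝓕 (hf2.toLp f) : Lp ℂ 2 (volume : Measure ℂ)) : ℂ → ℂ) x =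
        (Lp.toTemperedDistribution (𝓕 (hf2.toLp f) : Lp ℂ 2 (volume : Measure ℂ))) G := by
      rw [Lp.toTemperedDistribution_apply]
      rfl
    rw [h1, ← Lp.fourier_toTemperedDistribution_eq, TemperedDistribution.fourier_apply,
      Lp.toTemperedDistribution_apply]
    have h2 : ∫ x, (𝓕 G) x • ((hf2.toLp f : Lp ℂ 2 (volume : Measure ℂ)) : ℂ → ℂ) x =
        ∫ x, (𝓕 G) x • f x := by
      apply integral_congr_ae
      filter_upwards [hf2.coeFn_toLp] with x hx
      rw [hx]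
    rw [h2]
    have h3 := VectorFourier.integral_fourierIntegral_smul_eq_flip (μ := (volume : Measure ℂ))
      (ν := (volume : Measure ℂ))
      (L := innerₗ ℂ) (f := (G : ℂ → ℂ)) (g := f) Real.continuous_fourierChar
      continuous_inner G.integrable hf
    rw [flip_innerₗ] at h3
    exact h3

/-- Plancherel's theorem in the plane for the Fourier integral of a function in `L¹ ∩ L²` -/
theorem pl_plancherel (f : ℂ → ℂ) (hf : Integrable f) (hf2 : MemLp f 2) :
    Integrable (fun ξ => ‖𝓕 f ξ‖ ^ 2) ∧ ∫ ξ, ‖𝓕 f ξ‖ ^ 2 = ∫ x, ‖f x‖ ^ 2 := by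
  have hae := pl_ae_eq f hf hf2
  have hm : MemLp (𝓕 f) 2 (volume : Measure ℂ) := (Lp.memLp _).ae_eq hae
  have h1 : eLpNorm (𝓕 f) 2 volume = eLpNorm f 2 volume := by
    rw [← eLpNorm_congr_ae hae]
    have h1 := Lp.norm_fourier_eq (hf2.toLp f)
    rw [Lp.norm_def, Lp.norm_def, ENNReal.toReal_eq_toReal_iff' (Lp.eLpNorm_ne_top _)
      (Lp.eLpNorm_ne_top _)] at h1
    rw [h1]
    exact eLpNorm_congr_ae hf2.coeFn_toLp
  refine ⟨(memLp_two_iff_integrable_sq_norm hm.1).1 hm, ?_⟩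
  have e1 := hm.eLpNorm_eq_integral_rpow_norm (by norm_num) (by norm_num)
  have e2 := hf2.eLpNorm_eq_integral_rpow_norm (by norm_num) (by norm_num)
  rw [h1, e2] at e1
  have n1 : 0 ≤ ∫ x, ‖f x‖ ^ 2 := integral_nonneg fun x => by positivity
  have n2 : 0 ≤ ∫ x, ‖𝓕 f x‖ ^ 2 := integral_nonneg fun x => by positivity
  simp only [ENNReal.toReal_ofNat, Real.rpow_two] at e1
  rw [ENNReal.ofReal_eq_ofReal_iff (by positivity) (by positivity)] at e1
  exact ((Real.rpow_left_inj n1 n2 (by norm_num)).1 e1).symm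

/-- a bounded measurable function with bounded support -/
theorem pl_int (h : ℂ → ℝ) (R C : ℝ) (hm : Measurable h) (hb : ∀ x, |h x| ≤ C)
    (h0 : ∀ x, R < ‖x‖ → h x = 0) : Integrable h := by
  have h1 : IntegrableOn h (Metric.closedBall 0 R) :=
    Measure.integrableOn_of_bounded (M := C) (isCompact_closedBall 0 R).measure_lt_top.ne
      hm.aestronglyMeasurable (Filter.Eventually.of_forall fun x => by
        rw [Real.norm_eq_abs]; exact hb x)
  rw [← integrable_indicator_iff Metric.isClosed_closedBall.measurableSet] at h1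
  refine h1.congr (Filter.Eventually.of_forall fun x => ?_)
  by_cases hx : x ∈ Metric.closedBall (0 : ℂ) R
  · rw [Set.indicator_of_mem hx]
  · rw [Set.indicator_of_notMem hx]
    rw [mem_closedBall_zero_iff, not_le] at hx
    exact (h0 x hx).symm

theorem pl_fc (g : ℂ → ℝ) (R C : ℝ) (hm : Measurable g) (hb : ∀ x, |g x| ≤ C)
    (h0 : ∀ x, R < ‖x‖ → g x = 0) :
    Integrable (fun x => (g x : ℂ)) ∧ MemLp (fun x => (g x : ℂ)) 2 := by
  have hi := pl_int g R C hm hb h0
  have hmc : Measurable fun x => (g x : ℂ) := Complex.measurable_ofReal.comp hm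
  refine ⟨hi.ofReal, ?_⟩
  rw [memLp_two_iff_integrable_sq_norm hmc.aestronglyMeasurable]
  have hC : 0 ≤ C := (abs_nonneg _).trans (hb 0)
  have h2 : Integrable (fun x => g x ^ 2) := by
    refine pl_int (fun x => g x ^ 2) R (C ^ 2) (hm.pow_const 2) (fun x => ?_) (fun x hx => ?_)
    · rw [abs_of_nonneg (sq_nonneg _), ← sq_abs]
      exact pow_le_pow_left₀ (abs_nonneg _) (hb x) 2
    · rw [h0 x hx]; norm_num
  refine h2.congr (Filter.Eventually.of_forall fun x => ?_)
  simp only [Complex.norm_real, Real.norm_eq_abs, sq_abs]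

theorem st_PL : ST_PL := by
  intro g R hm hb h0
  set f : ℂ → ℂ := fun x => (g x : ℂ) with hf
  obtain ⟨hfi, hf2⟩ := pl_fc g R 1 hm hb h0
  obtain ⟨hφ, hφe⟩ := pl_plancherel f hfi hf2
  refine ⟨fun ξ => ‖𝓕 f ξ‖ ^ 2, fun ξ => by positivity, hφ, fun v => ?_⟩
  -- the function `g + g(· + v)`
  have hmv : Measurable fun x => g (x + v) := hm.comp (measurable_add_const v)
  have hbv : ∀ x, |g x + g (x + v)| ≤ 2 := fun x =>
    (abs_add_le _ _).trans (by linarith [hb x, hb (x + v)])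
  have h0v : ∀ x, R + ‖v‖ < ‖x‖ → g x + g (x + v) = 0 := by
    intro x hx
    have e1 : R < ‖x‖ := by linarith [norm_nonneg v]
    have e2 : R < ‖x + v‖ := by
      have : ‖x‖ ≤ ‖x + v‖ + ‖v‖ := by
        calc ‖x‖ = ‖(x + v) - v‖ := by ring_nf
          _ ≤ ‖x + v‖ + ‖v‖ := norm_sub_le _ _
      linarith
    rw [h0 x e1, h0 _ e2, add_zero]
  obtain ⟨hvi, hv2⟩ := pl_fc (fun x => g x + g (x + v)) (R + ‖v‖) 2 (hm.add hmv) hbv h0v
  obtain ⟨hψ, hψe⟩ := pl_plancherel _ hvi hv2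
  -- the transform of the shifted function
  have hfv : Integrable (fun x => f (x + v)) := hfi.comp_add_right v
  have hF : ∀ ξ : ℂ, 𝓕 (fun x : ℂ => ((g x + g (x + v) : ℝ) : ℂ)) ξ =
      (1 + Complex.exp ((2 * Real.pi * (v.re * ξ.re + v.im * ξ.im) : ℝ) * Complex.I)) *
        𝓕 f ξ := by
    intro ξ
    have e0 : (fun x : ℂ => ((g x + g (x + v) : ℝ) : ℂ)) = fun x => f x + f (x + v) := by
      funext x
      simp [hf]
    have e1 : 𝓕 (fun x => f x + f (x + v)) ξ = 𝓕 f ξ + 𝓕 (fun x => f (x + v)) ξ := by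
      simp only [Real.fourier_eq]
      rw [← integral_add]
      · simp only [smul_add]
      · exact (Real.fourierIntegral_convergent_iff ξ).2 hfi
      · exact (Real.fourierIntegral_convergent_iff ξ).2 hfv
    have e2 : 𝓕 (fun x => f (x + v)) ξ =
        Complex.exp ((2 * Real.pi * (v.re * ξ.re + v.im * ξ.im) : ℝ) * Complex.I) * 𝓕 f ξ := by
      have h := congrFun (VectorFourier.fourierIntegral_comp_add_right Real.fourierChar
        (volume : Measure ℂ) (innerₗ ℂ) f v) ξ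
      have h' : 𝓕 (fun x => f (x + v)) ξ = Real.fourierChar ((innerₗ ℂ) v ξ) • 𝓕 f ξ := h
      rw [h', Circle.smul_def, Real.fourierChar_apply, smul_eq_mul]
      congr 2
      have e3 : (innerₗ ℂ) v ξ = v.re * ξ.re + v.im * ξ.im := by
        rw [innerₗ_apply_apply, Complex.inner]
        simp [Complex.mul_re]
        ring
      rw [e3]
    rw [e0, e1, e2]
    ring
  have hN : ∀ ξ : ℂ, ‖𝓕 (fun x : ℂ => ((g x + g (x + v) : ℝ) : ℂ)) ξ‖ ^ 2 =
      2 * ‖𝓕 f ξ‖ ^ 2 + 2 * (‖𝓕 f ξ‖ ^ 2 *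
        Real.cos (2 * Real.pi * (v.re * ξ.re + v.im * ξ.im))) := by
    intro ξ
    rw [hF ξ, norm_mul, mul_pow]
    have e : ∀ t : ℝ, ‖(1 + Complex.exp ((t : ℝ) * Complex.I))‖ ^ 2 = 2 + 2 * Real.cos t := by
      intro t
      rw [← Complex.normSq_eq_norm_sq, Complex.normSq_apply]
      simp only [Complex.add_re, Complex.add_im, Complex.one_re, Complex.one_im,
        Complex.exp_ofReal_mul_I_re, Complex.exp_ofReal_mul_I_im]
      nlinarith [Real.sin_sq_add_cos_sq t]
    rw [e]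
    ring
  -- integrability of the pieces
  have j1 : Integrable (fun x => g x ^ 2) := by
    refine pl_int (fun x => g x ^ 2) R 1 (hm.pow_const 2) (fun x => ?_) (fun x hx => ?_)
    · rw [abs_of_nonneg (sq_nonneg _), ← sq_abs]
      calc |g x| ^ 2 ≤ 1 ^ 2 := pow_le_pow_left₀ (abs_nonneg _) (hb x) 2
        _ = 1 := by norm_num
    · rw [h0 x hx]; norm_num
  have j2 : Integrable (fun x => g (x + v) ^ 2) := j1.comp_add_right v
  have j3 : Integrable (fun x => g x * g (x + v)) := by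
    refine pl_int (fun x => g x * g (x + v)) R 1 (hm.mul hmv) (fun x => ?_) (fun x hx => ?_)
    · rw [abs_mul]
      exact mul_le_one₀ (hb x) (abs_nonneg _) (hb _)
    · rw [h0 x hx, zero_mul]
  have k1 : ∫ x, ‖((g x + g (x + v) : ℝ) : ℂ)‖ ^ 2 =
      2 * (∫ x, g x ^ 2) + 2 * ∫ x, g x * g (x + v) := by
    have e1 : (fun x => ‖((g x + g (x + v) : ℝ) : ℂ)‖ ^ 2) =
        fun x => (g x ^ 2 + g (x + v) ^ 2) + 2 * (g x * g (x + v)) := by
      funext x
      rw [Complex.norm_real, Real.norm_eq_abs, sq_abs]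
      ring
    have j12 : Integrable (fun x => g x ^ 2 + g (x + v) ^ 2) := j1.add j2
    rw [e1, integral_add j12 (j3.const_mul 2), integral_add j1 j2, integral_const_mul]
    have e2 : ∫ x, g (x + v) ^ 2 = ∫ x, g x ^ 2 := integral_add_right_eq_self (fun x => g x ^ 2) v
    rw [e2]
    ring
  have k2 : ∫ x, ‖f x‖ ^ 2 = ∫ x, g x ^ 2 := by
    congr 1
    funext x
    simp only [hf, Complex.norm_real, Real.norm_eq_abs, sq_abs]
  have hc : Integrable (fun ξ : ℂ => ‖𝓕 f ξ‖ ^ 2 *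
      Real.cos (2 * Real.pi * (v.re * ξ.re + v.im * ξ.im))) := by
    refine hφ.mono (hφ.aestronglyMeasurable.mul ?_) ?_
    · have : Continuous fun ξ : ℂ => Real.cos (2 * Real.pi * (v.re * ξ.re + v.im * ξ.im)) :=
        Real.continuous_cos.comp (continuous_const.mul ((continuous_const.mul
          Complex.continuous_re).add (continuous_const.mul Complex.continuous_im)))
      exact this.aestronglyMeasurable
    · refine Filter.Eventually.of_forall fun ξ => ?_
      rw [norm_mul]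
      calc ‖‖𝓕 f ξ‖ ^ 2‖ * ‖Real.cos (2 * Real.pi * (v.re * ξ.re + v.im * ξ.im))‖ ≤
            ‖‖𝓕 f ξ‖ ^ 2‖ * 1 :=
            mul_le_mul_of_nonneg_left (Real.abs_cos_le_one _) (norm_nonneg _)
        _ = _ := mul_one _
  have k3 : ∫ ξ, ‖𝓕 (fun x : ℂ => ((g x + g (x + v) : ℝ) : ℂ)) ξ‖ ^ 2 =
      2 * (∫ ξ, ‖𝓕 f ξ‖ ^ 2) + 2 * ∫ ξ, ‖𝓕 f ξ‖ ^ 2 *
        Real.cos (2 * Real.pi * (v.re * ξ.re + v.im * ξ.im)) := by
    simp only [hN]
    rw [integral_add (hφ.const_mul 2) (hc.const_mul 2), integral_const_mul, integral_const_mul]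
  rw [k1] at hψe
  rw [k2] at hφe
  rw [k3, hφe] at hψe
  linarith

end Pool.Agent.Helper16.RC
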